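import Mathlib

/-!
# Nonexpansive maps of the unit ball of `ℓ¹` have fixed points, `ℓ¹` fails the fixed point property

For a net `x_n` in the unit ball of `ℓ¹(ι)` which converges coordinatewise to `x` the norms satisfy
`‖x_n - y‖ = ‖x_n - x‖ + ‖x - y‖ + o(1)`. So the limit of approximate fixed points of a nonexpansive
self-map of the ball is a fixed point. The shift of the positive part of the unit sphere of `ℓ¹(ℕ)` is
an isometric self-map without fixed points.
-/

set_option autoImplicit false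

open Filter Topology Set
open scoped ENNReal NNReal

universe u

namespace Pool.Agent.Run7.h700.FP

variable {ι : Type u}

/-- the space `ℓ¹(ι)` -/
abbrev E (ι : Type u) : Type u := lp (fun _ : ι => ℝ) 1

lemma norm_eq (x : E ι) : ‖x‖ = ∑' i, |x i| := by
  have h := lp.norm_eq_tsum_rpow (p := 1) (by norm_num) x
  simpa using h

lemma summ (x : E ι) : Summable fun i => |x i| := by
  have h := (lp.memℓp x).summable (by norm_num)
  simpa using h

lemma mem_of_summable {g : ι → ℝ} (h : Summable fun i => |g i|) : Memℓp g 1 := by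
  refine memℓp_gen ?_
  simpa using h

lemma abs_le_norm (x : E ι) (i : ι) : |x i| ≤ ‖x‖ := by
  rw [norm_eq]
  exact (summ x).le_tsum i fun j _ => abs_nonneg _

lemma sum_le_norm (x : E ι) (F : Finset ι) : ∑ i ∈ F, |x i| ≤ ‖x‖ := by
  rw [norm_eq]
  exact (summ x).sum_le_tsum F fun j _ => abs_nonneg _

/-- the sum of two almost disjoint elements -/
lemma norm_add_ge (z w : E ι) (F : Finset ι) :
    ‖z‖ - ‖w‖ + 2 * ∑ i ∈ F, |w i| - 2 * ∑ i ∈ F, |z i| ≤ ‖z + w‖ := by
  have h1 : Summable fun i => |(z + w) i| - |z i| + |w i| := ((summ (z + w)).sub (summ z)).add (summ w)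
  have h2 : ∑' i, (|(z + w) i| - |z i| + |w i|) = ‖z + w‖ - ‖z‖ + ‖w‖ := by
    rw [((summ (z + w)).sub (summ z)).tsum_add (summ w), (summ (z + w)).tsum_sub (summ z), norm_eq,
      norm_eq, norm_eq]
  have h3 : ∀ i, 0 ≤ |(z + w) i| - |z i| + |w i| := by
    intro i
    have e : (z + w) i = z i + w i := rfl
    rw [e]
    have := abs_sub_abs_le_abs_sub (z i) (-(w i))
    rw [abs_neg, sub_neg_eq_add] at this
    linarith
  have h4 : ∑ i ∈ F, (|(z + w) i| - |z i| + |w i|) ≤ ∑' i, (|(z + w) i| - |z i| + |w i|) :=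
    h1.sum_le_tsum F fun i _ => h3 i
  have h5 : ∑ i ∈ F, (2 * |w i| - 2 * |z i|) ≤ ∑ i ∈ F, (|(z + w) i| - |z i| + |w i|) := by
    refine Finset.sum_le_sum fun i _ => ?_
    have e : (z + w) i = z i + w i := rfl
    rw [e]
    have := abs_sub_abs_le_abs_sub (w i) (-(z i))
    rw [abs_neg, sub_neg_eq_add, add_comm (w i)] at this
    linarith
  rw [Finset.sum_sub_distrib, ← Finset.mul_sum, ← Finset.mul_sum] at h5
  linarith

/-- approximate fixed points -/
lemma approx {T : E ι → E ι} (hT : MapsTo T (Metric.closedBall 0 1) (Metric.closedBall 0 1))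
    (hL : LipschitzOnWith 1 T (Metric.closedBall 0 1)) (n : ℕ) :
    ∃ x ∈ Metric.closedBall (0 : E ι) 1, ‖x - T x‖ ≤ 1 / ((n : ℝ) + 1) := by
  have hn : (0 : ℝ) < (n : ℝ) + 1 := by positivity
  obtain ⟨c, hc⟩ : ∃ c : ℝ, c = 1 - 1 / ((n : ℝ) + 1) := ⟨_, rfl⟩
  have hinv : 0 < 1 / ((n : ℝ) + 1) := by positivity
  have hinv' : 1 / ((n : ℝ) + 1) ≤ 1 := by
    rw [div_le_one hn]
    have : (0 : ℝ) ≤ n := Nat.cast_nonneg n
    linarith
  have hc0 : 0 ≤ c := by linarith
  have hc1 : c < 1 := by linarith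
  have hmaps : MapsTo (fun x => c • T x) (Metric.closedBall (0 : E ι) 1) (Metric.closedBall 0 1) := by
    intro x hx
    have h1 := hT hx
    rw [mem_closedBall_zero_iff] at h1 ⊢
    rw [norm_smul, Real.norm_of_nonneg hc0]
    exact mul_le_one₀ hc1.le (norm_nonneg _) h1
  have hcon : ContractingWith ⟨c, hc0⟩ (hmaps.restrict (fun x => c • T x) _ _) := by
    refine ⟨?_, ?_⟩
    · exact_mod_cast hc1
    · refine LipschitzWith.of_dist_le_mul fun x y => ?_
      rw [Subtype.dist_eq, Subtype.dist_eq]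
      show dist (c • T x) (c • T y) ≤ c * dist (x : E ι) y
      rw [dist_smul₀, Real.norm_of_nonneg hc0]
      have := hL.dist_le_mul x x.2 y y.2
      rw [NNReal.coe_one, one_mul] at this
      exact mul_le_mul_of_nonneg_left this hc0
  obtain ⟨x, hx, hfix, -⟩ := hcon.exists_fixedPoint' Metric.isClosed_closedBall.isComplete hmaps
    (x := 0) (Metric.mem_closedBall_self zero_le_one) (edist_ne_top _ _)
  refine ⟨x, hx, ?_⟩
  have h1 : c • T x = x := hfix
  have h2 : x - T x = -((1 / ((n : ℝ) + 1)) • T x) := by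
    nth_rewrite 1 [← h1]
    rw [hc, sub_smul, one_smul]
    abel
  rw [h2, norm_neg, norm_smul, Real.norm_of_nonneg hinv.le]
  have h3 := hT hx
  rw [mem_closedBall_zero_iff] at h3
  exact mul_le_of_le_one_right hinv.le h3

/-- A nonexpansive map of the closed unit ball of `ℓ¹(ι)` into itself has a fixed point. -/
theorem ball_fixed {T : E ι → E ι} (hT : MapsTo T (Metric.closedBall 0 1) (Metric.closedBall 0 1))
    (hL : LipschitzOnWith 1 T (Metric.closedBall 0 1)) :
    ∃ x ∈ Metric.closedBall (0 : E ι) 1, T x = x := by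
  choose x hx hTx using fun n => approx hT hL n
  obtain ⟨U, hU⟩ : ∃ U : Ultrafilter ℕ, (U : Filter ℕ) ≤ atTop := ⟨hyperfilter ℕ, Nat.hyperfilter_le_atTop⟩
  have hlim : ∀ i, ∃ a : ℝ, Tendsto (fun n => x n i) U (𝓝 a) := by
    intro i
    obtain ⟨a, -, ha⟩ := (isCompact_Icc (a := (-1 : ℝ)) (b := 1)).ultrafilter_le_nhds
      (U.map fun n => x n i) (by
        rw [Ultrafilter.coe_map, Filter.le_principal_iff, Filter.mem_map]
        refine Filter.univ_mem' fun n => ?_
        have h1 := abs_le_norm (x n) i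
        have h2 := hx n
        rw [mem_closedBall_zero_iff] at h2
        exact abs_le.1 (h1.trans h2))
    exact ⟨a, ha⟩
  choose a ha using hlim
  have hsum : ∀ F : Finset ι, ∑ i ∈ F, |a i| ≤ 1 := by
    intro F
    have h1 : Tendsto (fun n => ∑ i ∈ F, |x n i|) U (𝓝 (∑ i ∈ F, |a i|)) :=
      tendsto_finsetSum _ fun i _ => (ha i).abs
    refine le_of_tendsto h1 (Filter.univ_mem' fun n => ?_)
    have h2 := hx n
    rw [mem_closedBall_zero_iff] at h2
    exact (sum_le_norm (x n) F).trans h2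
  have hsm : Summable fun i => |a i| := summable_of_sum_le (fun i => abs_nonneg _) hsum
  obtain ⟨y, hy⟩ : ∃ y : E ι, ∀ i, y i = a i := ⟨⟨a, mem_of_summable hsm⟩, fun _ => rfl⟩
  have hyB : y ∈ Metric.closedBall (0 : E ι) 1 := by
    rw [mem_closedBall_zero_iff, norm_eq]
    refine (summ y).tsum_le_of_sum_le fun F => ?_
    simp only [hy]
    exact hsum F
  refine ⟨y, hyB, ?_⟩
  obtain ⟨w, hw⟩ : ∃ w : E ι, w = y - T y := ⟨_, rfl⟩
  have key : ∀ ε : ℝ, 0 < ε → ‖w‖ ≤ 5 * ε := by
    intro ε hε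
    obtain ⟨F, hF⟩ : ∃ F : Finset ι, ‖w‖ - ε < ∑ i ∈ F, |w i| := by
      have h1 := (summ w).hasSum
      rw [← norm_eq] at h1
      exact (h1.eventually (lt_mem_nhds (sub_lt_self _ hε))).exists
    have h2 : Tendsto (fun n => ∑ i ∈ F, |(x n - y) i|) U (𝓝 0) := by
      have h3 : Tendsto (fun n => ∑ i ∈ F, |x n i - a i|) U (𝓝 (∑ i ∈ F, |a i - a i|)) :=
        tendsto_finsetSum _ fun i _ => ((ha i).sub_const (a i)).abs
      simp only [sub_self, abs_zero, Finset.sum_const_zero] at h3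
      refine h3.congr fun n => Finset.sum_congr rfl fun i _ => ?_
      have e : (x n - y) i = x n i - y i := rfl
      rw [e, hy]
    have h4 : Tendsto (fun n : ℕ => 1 / ((n : ℝ) + 1)) U (𝓝 0) :=
      tendsto_one_div_add_atTop_nhds_zero_nat.mono_left hU
    obtain ⟨n, h5, h6⟩ := ((h2.eventually (gt_mem_nhds hε)).and (h4.eventually (gt_mem_nhds hε))).exists
    have h7 := norm_add_ge (x n - y) w F
    have e1 : x n - y + w = x n - T y := by rw [hw]; abel
    rw [e1] at h7
    have h8 : ‖x n - T y‖ ≤ ‖x n - T (x n)‖ + ‖T (x n) - T y‖ := by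
      have := norm_add_le (x n - T (x n)) (T (x n) - T y)
      rwa [sub_add_sub_cancel] at this
    have h9 := hL.dist_le_mul (x n) (hx n) y hyB
    rw [NNReal.coe_one, one_mul, dist_eq_norm, dist_eq_norm] at h9
    have h10 := hTx n
    linarith
  have hw0 : ‖w‖ ≤ 0 := by
    refine le_of_forall_pos_le_add fun ε hε => ?_
    have := key (ε / 5) (by positivity)
    linarith
  have hw1 : w = 0 := norm_le_zero_iff.1 hw0
  rw [hw] at hw1
  exact (sub_eq_zero.1 hw1).symm

/-- the successor on the index set -/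
def e (i : ULift.{u} ℕ) : ULift.{u} ℕ := ⟨i.down + 1⟩

lemma e_inj : Function.Injective e.{u} := by
  intro i j h
  have h1 : i.down + 1 = j.down + 1 := congrArg ULift.down h
  exact ULift.ext _ _ (Nat.succ_injective h1)

lemma ext_apply (g : ULift.{u} ℕ → ℝ) (i : ULift.{u} ℕ) : Function.extend e g 0 (e i) = g i :=
  e_inj.extend_apply g 0 i

lemma ext_out (g : ULift.{u} ℕ → ℝ) {i : ULift.{u} ℕ} (h : i ∉ range e.{u}) :
    Function.extend e g 0 i = 0 := by
  rw [Function.extend_apply' _ _ _ (by simpa using h)]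
  rfl

/-- the shift -/
noncomputable def S (x : E (ULift.{u} ℕ)) : E (ULift.{u} ℕ) :=
  ⟨Function.extend e (fun i => x i) 0, mem_of_summable (by
    have h := e_inj.summable_iff (f := fun i => |Function.extend e (fun i => x i) 0 i|) (fun i hi => by
      rw [ext_out _ hi, abs_zero])
    rw [← h]
    refine (summ x).congr fun i => ?_
    show |x i| = |Function.extend e (fun i => x i) 0 (e i)|
    rw [ext_apply])⟩

lemma S_apply (x : E (ULift.{u} ℕ)) (i : ULift.{u} ℕ) : S x (e i) = x i := ext_apply _ i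

lemma S_out (x : E (ULift.{u} ℕ)) {i : ULift.{u} ℕ} (h : i ∉ range e.{u}) : S x i = 0 := ext_out _ h

lemma S_dist (x y : E (ULift.{u} ℕ)) : ‖S x - S y‖ = ‖x - y‖ := by
  rw [norm_eq, norm_eq, ← e_inj.tsum_eq (f := fun i => |(S x - S y) i|)]
  · refine tsum_congr fun i => ?_
    have e1 : (S x - S y) (e i) = S x (e i) - S y (e i) := rfl
    have e2 : (x - y) i = x i - y i := rfl
    rw [e1, e2, S_apply, S_apply]
  · intro i hi
    by_contra h
    refine hi ?_
    have e1 : (S x - S y) i = S x i - S y i := rfl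
    show |(S x - S y) i| = 0
    rw [e1, S_out x h, S_out y h, sub_self, abs_zero]

lemma S_norm (x : E (ULift.{u} ℕ)) : ‖S x‖ = ‖x‖ := by
  have h0 : S (0 : E (ULift.{u} ℕ)) = 0 := by
    ext i
    by_cases h : i ∈ range e.{u}
    · obtain ⟨j, rfl⟩ := h
      rw [S_apply]
      rfl
    · rw [S_out _ h]
      rfl
  have := S_dist x 0
  rwa [h0, sub_zero, sub_zero] at this

/-- the positive part of the unit sphere -/
def C : Set (E (ULift.{u} ℕ)) := {x | (∀ i, 0 ≤ x i) ∧ ‖x‖ = 1}

lemma C_nonempty : (C.{u}).Nonempty := by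
  classical
  refine ⟨lp.single 1 ⟨0⟩ 1, fun i => ?_, ?_⟩
  · rw [lp.single_apply]
    by_cases h : i = ⟨0⟩
    · subst h; simp
    · simp [h]
  · rw [lp.norm_single (by norm_num)]
    simp

lemma C_bounded : Bornology.IsBounded C.{u} := by
  refine (Metric.isBounded_closedBall (x := (0 : E (ULift.{u} ℕ))) (r := 1)).subset fun x hx => ?_
  rw [mem_closedBall_zero_iff]
  exact hx.2.le

lemma eval_cont (i : ι) : Continuous fun x : E ι => x i := by
  refine continuous_iff_continuousAt.2 fun x => Metric.tendsto_nhds.2 fun ε hε => ?_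
  filter_upwards [Metric.ball_mem_nhds x hε] with y hy
  rw [Real.dist_eq]
  have e1 : y i - x i = (y - x) i := rfl
  rw [e1]
  rw [Metric.mem_ball, dist_eq_norm] at hy
  exact (abs_le_norm (y - x) i).trans_lt hy

lemma C_closed : IsClosed C.{u} := by
  have h1 : IsClosed {x : E (ULift.{u} ℕ) | ∀ i, 0 ≤ x i} := by
    rw [show {x : E (ULift.{u} ℕ) | ∀ i, 0 ≤ x i} = ⋂ i, {x : E (ULift.{u} ℕ) | 0 ≤ x i} by
      ext x; simp]
    exact isClosed_iInter fun i => isClosed_le continuous_const (eval_cont i)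
  exact h1.inter (isClosed_eq continuous_norm continuous_const)

lemma C_convex : Convex ℝ C.{u} := by
  intro x hx y hy s t hs ht hst
  have e1 : ∀ i, (s • x + t • y) i = s * x i + t * y i := fun i => rfl
  have h1 : ∀ i, 0 ≤ (s • x + t • y) i := by
    intro i
    rw [e1]
    have := hx.1 i
    have := hy.1 i
    positivity
  refine ⟨h1, ?_⟩
  have h2 : ∀ i, |(s • x + t • y) i| = s * |x i| + t * |y i| := by
    intro i
    rw [abs_of_nonneg (h1 i), e1, abs_of_nonneg (hx.1 i), abs_of_nonneg (hy.1 i)]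
  rw [norm_eq]
  simp only [h2]
  rw [((summ x).mul_left s).tsum_add ((summ y).mul_left t), tsum_mul_left, tsum_mul_left, ← norm_eq,
    ← norm_eq, hx.2, hy.2, mul_one, mul_one, hst]

lemma S_C : MapsTo S C.{u} C.{u} := by
  intro x hx
  refine ⟨fun i => ?_, (S_norm x).trans hx.2⟩
  by_cases h : i ∈ range e.{u}
  · obtain ⟨j, rfl⟩ := h
    rw [S_apply]
    exact hx.1 j
  · rw [S_out _ h]

lemma S_free {x : E (ULift.{u} ℕ)} (hx : x ∈ C.{u}) : S x ≠ x := by
  intro h
  have h0 : ∀ n : ℕ, x ⟨n⟩ = 0 := by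
    intro n
    induction n with
    | zero =>
      rw [← h]
      refine S_out x ?_
      rintro ⟨j, hj⟩
      exact Nat.succ_ne_zero _ (congrArg ULift.down hj)
    | succ n ih =>
      rw [← h]
      exact (S_apply x ⟨n⟩).trans ih
  have h1 : ‖x‖ = 0 := by
    rw [norm_eq]
    have : ∀ i, |x i| = 0 := fun i => by rw [show i = ⟨i.down⟩ from rfl, h0, abs_zero]
    simp only [this, tsum_zero]
  rw [hx.2] at h1
  exact one_ne_zero h1

end Pool.Agent.Run7.h700.FP
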